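import Pool.Agent.V5helper10.KSC.LADefs

/-!
# Project GK, job HGT: the pure part (invariance of forms under a change of basis)
-/

set_option linter.unusedSectionVars false

namespace Pool.Agent.V5helper18.GK

open Matrix Pool.Agent.N996.BP Pool.Agent.N996.FP

section Kr

variable {κ α β γ : Type} [Fintype κ] [DecidableEq κ] [Fintype α] [DecidableEq α] [Fintype β]
  [DecidableEq β] [Fintype γ] [DecidableEq γ]

/-- The Kronecker product of a family of rectangular matrices. -/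
def kr (g : κ → Matrix α β ℂ) : Matrix (κ → α) (κ → β) ℂ :=
  Matrix.of fun i j => ∏ k, g k (i k) (j k)

lemma kr_mul (g : κ → Matrix α β ℂ) (h : κ → Matrix β γ ℂ) :
    kr g * kr h = kr fun k => g k * h k := by
  ext i j
  simp only [kr, Matrix.of_apply, Matrix.mul_apply]
  rw [Finset.prod_univ_sum]
  refine Finset.sum_congr (by ext; simp) fun a _ => ?_
  rw [Finset.prod_mul_distrib]

lemma kr_transpose (g : κ → Matrix α β ℂ) : (kr g)ᵀ = kr fun k => (g k)ᵀ := by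
  ext i j
  simp [kr]

lemma kr_slot (l : κ) (x : Matrix α α ℂ) : kr (Function.update (fun _ => 1) l x) = slot l x := rfl

/-- The action of a slot on a row vector. -/
lemma vecMul_slot (l : κ) (x : Matrix α α ℂ) (t : (κ → α) → ℂ) (J : κ → α) :
    (t ᵥ* slot l x) J = ∑ i, x i (J l) * t (Function.update J l i) := by
  rw [Matrix.vecMul, dotProduct]
  have h1 : ∀ I : κ → α, t I * slot l x I J =
      if I = Function.update J l (I l) then x (I l) (J l) * t I else 0 := by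
    intro I
    rw [slot_apply]
    split_ifs with h
    · have h2 : ∏ m ∈ Finset.univ.erase l, (1 : Matrix α α ℂ) (I m) (J m) = 1 := by
        refine Finset.prod_eq_one fun m hm => ?_
        have h3 : I m = J m := by
          rw [h, Function.update_of_ne (Finset.ne_of_mem_erase hm)]
        rw [h3, Matrix.one_apply_eq]
      rw [h2, mul_one, mul_comm]
    · have h2 : ∃ m ∈ Finset.univ.erase l, I m ≠ J m := by
        by_contra hne
        push Not at hne
        apply h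
        funext m
        by_cases hm : m = l
        · subst hm; rw [Function.update_self]
        · rw [Function.update_of_ne hm]
          exact hne m (Finset.mem_erase.2 ⟨hm, Finset.mem_univ _⟩)
      obtain ⟨m, hm, hne⟩ := h2
      have h4 : ∏ m ∈ Finset.univ.erase l, (1 : Matrix α α ℂ) (I m) (J m) = 0 :=
        Finset.prod_eq_zero hm (Matrix.one_apply_ne hne)
      rw [h4, mul_zero, mul_zero]
  rw [Finset.sum_congr rfl fun I _ => h1 I, ← Finset.sum_filter]
  symm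
  refine Finset.sum_bij (fun i _ => Function.update J l i) ?_ ?_ ?_ ?_
  · intro i _
    rw [Finset.mem_filter]
    exact ⟨Finset.mem_univ _, by rw [Function.update_self]⟩
  · intro i _ i' _ h
    have := congrFun h l
    rwa [Function.update_self, Function.update_self] at this
  · intro I hI
    rw [Finset.mem_filter] at hI
    exact ⟨I l, Finset.mem_univ _, hI.2.symm⟩
  · intro i _
    rw [Function.update_self]

/-- Invariance of a form. -/
lemma minv_of {N : Matrix α β ℂ} {D : Matrix β β ℂ} {A : Matrix α α ℂ} (h : N * D = Aᵀ * N)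
    {a : (κ → α) → ℂ} (ha : kp κ A *ᵥ a = a) :
    (a ᵥ* kr fun _ : κ => N) ᵥ* kr (fun _ : κ => D) = a ᵥ* kr fun _ : κ => N := by
  rw [Matrix.vecMul_vecMul, kr_mul, h, ← kr_mul, ← Matrix.vecMul_vecMul]
  congr 1
  have h1 : (kr fun _ : κ => Aᵀ) = (kp κ A)ᵀ := by
    ext i j
    simp [kr, kp_apply]
  rw [h1, Matrix.vecMul_transpose, ha]

/-- Infinitesimal invariance of a form. -/
lemma linv_of {N : Matrix α β ℂ} {x : Matrix β β ℂ} {z : Matrix α α ℂ} (h : N * x = zᵀ * N)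
    {a : (κ → α) → ℂ} (ha : dk κ z *ᵥ a = 0) :
    (a ᵥ* kr fun _ : κ => N) ᵥ* dk κ x = 0 := by
  have h1 : (kr fun _ : κ => N) * dk κ x = (dk κ z)ᵀ * kr fun _ : κ => N := by
    rw [dk, dk, Matrix.mul_sum, Matrix.transpose_sum, Matrix.sum_mul]
    refine Finset.sum_congr rfl fun l _ => ?_
    rw [← kr_slot, ← kr_slot, kr_transpose, kr_mul, kr_mul]
    congr 1
    funext m
    by_cases hm : m = l
    · subst hm
      rw [Function.update_self, Function.update_self, h]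
    · rw [Function.update_of_ne hm, Function.update_of_ne hm, Matrix.mul_one,
        Matrix.transpose_one, Matrix.one_mul]
  rw [Matrix.vecMul_vecMul, h1, ← Matrix.vecMul_vecMul, Matrix.vecMul_transpose, ha,
    Matrix.zero_vecMul]

lemma vecMul_dk (x : Matrix α α ℂ) (t : (κ → α) → ℂ) (J : κ → α) :
    (t ᵥ* dk κ x) J = ∑ l, ∑ i, x i (J l) * t (Function.update J l i) := by
  rw [dk, Matrix.vecMul, dotProduct]
  simp only [Matrix.sum_apply, Finset.mul_sum]
  rw [Finset.sum_comm]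
  refine Finset.sum_congr rfl fun l _ => ?_
  rw [← vecMul_slot]
  rfl

end Kr

section Blk

variable {ι : Type} [Fintype ι] [DecidableEq ι] {r s : ℕ}
  {E : Matrix ι (Fin s ⊕ Fin r) ℂ} {E' : Matrix (Fin s ⊕ Fin r) ι ℂ} {tt : Finset ι}

/-- The inverse of a block matrix is a block matrix. -/
lemma inv_blk (h1 : E * E' = 1) (h2 : E' * E = 1) (hl : ∀ i ∈ tt, ∀ j, E i (Sum.inl j) = 0)
    (hr : ∀ i, i ∉ tt → ∀ j, E i (Sum.inr j) = 0) :
    (∀ i ∈ tt, ∀ j, E' (Sum.inl j) i = 0) ∧ ∀ i, i ∉ tt → ∀ j, E' (Sum.inr j) i = 0 := by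
  let P : Matrix ι ι ℂ := Matrix.diagonal fun i => if i ∈ tt then 1 else 0
  let R : Matrix (Fin s ⊕ Fin r) (Fin s ⊕ Fin r) ℂ :=
    Matrix.diagonal (Sum.elim (fun _ => 0) fun _ => 1)
  have h3 : P * E = E * R := by
    ext i j
    rw [Matrix.diagonal_mul, Matrix.mul_diagonal]
    rcases j with j | j
    · by_cases hi : i ∈ tt
      · rw [hl i hi]; simp
      · simp [hi]
    · by_cases hi : i ∈ tt
      · simp [hi]
      · rw [hr i hi]; simp
  have h4 : E' * P = R * E' := by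
    calc E' * P = E' * P * (E * E') := by rw [h1, Matrix.mul_one]
      _ = E' * (P * E) * E' := by simp only [Matrix.mul_assoc]
      _ = (E' * E) * R * E' := by rw [h3]; simp only [Matrix.mul_assoc]
      _ = R * E' := by rw [h2, Matrix.one_mul]
  constructor
  · intro i hi j
    have h5 := congrFun (congrFun h4 (Sum.inl j)) i
    rw [Matrix.mul_diagonal, Matrix.diagonal_mul] at h5
    simpa [hi] using h5
  · intro i hi j
    have h5 := congrFun (congrFun h4 (Sum.inr j)) i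
    rw [Matrix.mul_diagonal, Matrix.diagonal_mul] at h5
    simpa [hi] using h5.symm

open Pool.Agent.V5helper10.KSC

variable {H : HData ι}

lemma so_blk (hso : ∀ A : Matrix ι ι ℂ, Aᵀ * cQ H.Qr * A = cQ H.Qr →
      (∀ v ∈ TC tt, A *ᵥ v ∈ TC tt) →
      (∀ i, i ∉ tt → A *ᵥ (Pi.single i 1 : ι → ℂ) = Pi.single i 1) → A.det = 1 → A ∈ So H)
    (h1 : E * E' = 1) (h2 : E' * E = 1) (hl : ∀ i ∈ tt, ∀ j, E i (Sum.inl j) = 0)
    (hr : ∀ i, i ∉ tt → ∀ j, E i (Sum.inr j) = 0)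
    {B : Matrix (Fin r) (Fin r) ℂ} {Q1 : Matrix (Fin s) (Fin s) ℂ}
    (hQ : Eᵀ * cQ H.Qr * E = Matrix.fromBlocks Q1 0 0 (-B))
    {g : Matrix (Fin r) (Fin r) ℂ} (hg : gᵀ * B * g = B) (hd : g.det = 1) :
    E * Matrix.fromBlocks (1 : Matrix (Fin s) (Fin s) ℂ) 0 0 g * E' ∈ So H := by
  obtain ⟨hl', hr'⟩ := inv_blk h1 h2 hl hr
  have hQ2 : cQ H.Qr = E'ᵀ * Matrix.fromBlocks Q1 0 0 (-B) * E' := by
    rw [← hQ]
    calc cQ H.Qr = (E * E')ᵀ * cQ H.Qr * (E * E') := by
          rw [h1, Matrix.transpose_one, Matrix.one_mul, Matrix.mul_one]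
      _ = _ := by
          rw [Matrix.transpose_mul]
          simp only [Matrix.mul_assoc]
  have hDQ : (Matrix.fromBlocks (1 : Matrix (Fin s) (Fin s) ℂ) 0 0 g)ᵀ *
      Matrix.fromBlocks Q1 0 0 (-B) * Matrix.fromBlocks (1 : Matrix (Fin s) (Fin s) ℂ) 0 0 g =
      Matrix.fromBlocks Q1 0 0 (-B) := by
    rw [Matrix.fromBlocks_transpose, Matrix.fromBlocks_multiply, Matrix.fromBlocks_multiply]
    congr 1
    · simp
    · simp
    · simp
    · simp [hg]
  refine hso _ ?_ ?_ ?_ ?_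
  · calc (E * Matrix.fromBlocks (1 : Matrix (Fin s) (Fin s) ℂ) 0 0 g * E')ᵀ * cQ H.Qr *
          (E * Matrix.fromBlocks (1 : Matrix (Fin s) (Fin s) ℂ) 0 0 g * E') =
          E'ᵀ * ((Matrix.fromBlocks (1 : Matrix (Fin s) (Fin s) ℂ) 0 0 g)ᵀ *
          (Eᵀ * cQ H.Qr * E) * Matrix.fromBlocks (1 : Matrix (Fin s) (Fin s) ℂ) 0 0 g) * E' := by
            rw [Matrix.transpose_mul, Matrix.transpose_mul]
            simp only [Matrix.mul_assoc]
      _ = cQ H.Qr := by rw [hQ, hDQ, ← hQ2]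
  · intro v hv i hi
    rw [← Matrix.mulVec_mulVec, ← Matrix.mulVec_mulVec]
    have hw : (fun j => (E' *ᵥ v) (Sum.inl j)) = 0 := by
      funext j
      rw [Matrix.mulVec, dotProduct]
      refine Finset.sum_eq_zero fun m _ => ?_
      by_cases hm : m ∈ tt
      · rw [hl' m hm, zero_mul]
      · rw [hv m hm, mul_zero]
    rw [Matrix.fromBlocks_mulVec]
    have hw2 : (E' *ᵥ v) ∘ Sum.inl = (0 : Fin s → ℂ) := hw
    rw [hw2, Matrix.mulVec, dotProduct, Fintype.sum_sum_type]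
    simp [hr i hi]
  · intro i hi
    rw [← Matrix.mulVec_mulVec, ← Matrix.mulVec_mulVec, Matrix.fromBlocks_mulVec]
    have hw : (E' *ᵥ (Pi.single i 1 : ι → ℂ)) ∘ Sum.inr = (0 : Fin r → ℂ) := by
      funext j
      rw [Function.comp_apply, Matrix.mulVec_single_one]
      exact hr' i hi j
    have hw2 : (Sum.elim ((1 : Matrix (Fin s) (Fin s) ℂ) *ᵥ
        ((E' *ᵥ (Pi.single i 1 : ι → ℂ)) ∘ Sum.inl) + (0 : Matrix (Fin s) (Fin r) ℂ) *ᵥ
        ((E' *ᵥ (Pi.single i 1 : ι → ℂ)) ∘ Sum.inr))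
        ((0 : Matrix (Fin r) (Fin s) ℂ) *ᵥ ((E' *ᵥ (Pi.single i 1 : ι → ℂ)) ∘ Sum.inl) +
        g *ᵥ ((E' *ᵥ (Pi.single i 1 : ι → ℂ)) ∘ Sum.inr)) : Fin s ⊕ Fin r → ℂ) =
        E' *ᵥ (Pi.single i 1 : ι → ℂ) := by
      rw [hw]
      funext j
      rcases j with j | j
      · simp
      · have := congrFun hw j
        simp only [Function.comp_apply, Pi.zero_apply] at this
        simp [this]
    rw [hw2, Matrix.mulVec_mulVec, h1, Matrix.one_mulVec]
  · rw [Matrix.det_conj_of_mul_eq_one h1 h2, Matrix.det_fromBlocks_zero₂₁, Matrix.det_one,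
      one_mul, hd]

/-- The pure part of HGT. -/
theorem core_blk (hwd : ∀ x ∈ TC tt, ∀ y ∈ TC tt, wd H x y ∈ ho H)
    (hso : ∀ A : Matrix ι ι ℂ, Aᵀ * cQ H.Qr * A = cQ H.Qr →
      (∀ v ∈ TC tt, A *ᵥ v ∈ TC tt) →
      (∀ i, i ∉ tt → A *ᵥ (Pi.single i 1 : ι → ℂ) = Pi.single i 1) → A.det = 1 → A ∈ So H)
    (h1 : E * E' = 1) (h2 : E' * E = 1) (hl : ∀ i ∈ tt, ∀ j, E i (Sum.inl j) = 0)
    (hr : ∀ i, i ∉ tt → ∀ j, E i (Sum.inr j) = 0)
    {B : Matrix (Fin r) (Fin r) ℂ} {Q1 G1 : Matrix (Fin s) (Fin s) ℂ}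
    (hQ : Eᵀ * cQ H.Qr * E = Matrix.fromBlocks Q1 0 0 (-B)) (hBs : Bᵀ = B)
    {N : Matrix ι (Fin s ⊕ Fin r) ℂ} (hN : N = E'ᵀ * Matrix.fromBlocks G1 0 0 B)
    {m : ℕ} {a : (Fin m → ι) → ℚ} (ha : a ∈ BB H (Fin m)) {t : (Fin m → Fin s ⊕ Fin r) → ℂ}
    (ht : t = ca a ᵥ* kr fun _ : Fin m => N) :
    (∀ g : Matrix (Fin r) (Fin r) ℂ, gᵀ * B * g = B → g.det = 1 →
      ∀ J : Fin m → Fin s ⊕ Fin r, ∑ I : Fin m → Fin s ⊕ Fin r, t I *
        ∏ l, (Matrix.fromBlocks (1 : Matrix (Fin s) (Fin s) ℂ) 0 0 g) (I l) (J l) = t J) ∧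
    ∀ u v : Fin r → ℂ, ∀ J : Fin m → Fin s ⊕ Fin r, ∑ l, ∑ i,
      (Matrix.fromBlocks (0 : Matrix (Fin s) (Fin s) ℂ) 0 0
        (Matrix.vecMulVec u (B *ᵥ v) - Matrix.vecMulVec v (B *ᵥ u))) i (J l) *
        t (Function.update J l i) = 0 := by
  constructor
  · intro g hg hd J
    have hu : IsUnit g.det := by rw [hd]; exact isUnit_one
    have e1 : g * g⁻¹ = 1 := Matrix.mul_nonsing_inv g hu
    have e2 : g⁻¹ * g = 1 := Matrix.nonsing_inv_mul g hu
    have hd' : (g⁻¹).det = 1 := by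
      have := congrArg Matrix.det e1
      rwa [Matrix.det_mul, hd, one_mul, Matrix.det_one] at this
    have e3 : (g⁻¹)ᵀ * gᵀ = 1 := by rw [← Matrix.transpose_mul, e1, Matrix.transpose_one]
    have hg1 : B * g = (g⁻¹)ᵀ * B := by
      calc B * g = ((g⁻¹)ᵀ * gᵀ) * (B * g) := by rw [e3, Matrix.one_mul]
        _ = (g⁻¹)ᵀ * (gᵀ * B * g) := by simp only [Matrix.mul_assoc]
        _ = (g⁻¹)ᵀ * B := by rw [hg]
    have hg' : (g⁻¹)ᵀ * B * g⁻¹ = B := by
      rw [← hg1, Matrix.mul_assoc, e1, Matrix.mul_one]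
    have hA := so_blk hso h1 h2 hl hr hQ hg' hd'
    have hfix := (mem_So.1 hA) (Fin m) a ha
    have hND : N * Matrix.fromBlocks (1 : Matrix (Fin s) (Fin s) ℂ) 0 0 g =
        (E * Matrix.fromBlocks (1 : Matrix (Fin s) (Fin s) ℂ) 0 0 g⁻¹ * E')ᵀ * N := by
      have h3 : Matrix.fromBlocks G1 0 0 B * Matrix.fromBlocks (1 : Matrix (Fin s) (Fin s) ℂ) 0 0 g =
          (Matrix.fromBlocks (1 : Matrix (Fin s) (Fin s) ℂ) 0 0 g⁻¹)ᵀ *
            Matrix.fromBlocks G1 0 0 B := by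
        rw [Matrix.fromBlocks_transpose, Matrix.fromBlocks_multiply, Matrix.fromBlocks_multiply]
        congr 1
        · simp
        · simp
        · simp
        · simp [hg1]
      calc N * Matrix.fromBlocks (1 : Matrix (Fin s) (Fin s) ℂ) 0 0 g =
          E'ᵀ * ((Matrix.fromBlocks (1 : Matrix (Fin s) (Fin s) ℂ) 0 0 g⁻¹)ᵀ *
            Matrix.fromBlocks G1 0 0 B) := by rw [hN, Matrix.mul_assoc, h3]
        _ = E'ᵀ * ((Matrix.fromBlocks (1 : Matrix (Fin s) (Fin s) ℂ) 0 0 g⁻¹)ᵀ *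
            ((E' * E)ᵀ * Matrix.fromBlocks G1 0 0 B)) := by
              rw [h2, Matrix.transpose_one, Matrix.one_mul]
        _ = _ := by
          rw [hN]
          simp only [Matrix.transpose_mul, Matrix.mul_assoc]
    have h4 := congrFun (minv_of hND hfix) J
    rw [← ht] at h4
    exact h4
  · intro u v J
    obtain ⟨x, hx⟩ : ∃ x : Matrix (Fin r) (Fin r) ℂ,
        x = Matrix.vecMulVec u (B *ᵥ v) - Matrix.vecMulVec v (B *ᵥ u) := ⟨_, rfl⟩
    have hBx : B * x = -(xᵀ * B) := by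
      have e1 : ∀ w : Fin r → ℂ, w ᵥ* B = B *ᵥ w := fun w => by
        conv_lhs => rw [← hBs]
        exact Matrix.vecMul_transpose _ _
      rw [hx, Matrix.mul_sub, Matrix.transpose_sub, Matrix.sub_mul, Matrix.transpose_vecMulVec,
        Matrix.transpose_vecMulVec, Matrix.mul_vecMulVec, Matrix.mul_vecMulVec,
        Matrix.vecMulVec_mul, Matrix.vecMulVec_mul, e1, e1, neg_sub]
    obtain ⟨z, hz⟩ : ∃ z : Matrix ι ι ℂ, z = -(E *
        Matrix.fromBlocks (0 : Matrix (Fin s) (Fin s) ℂ) 0 0 x * E') := ⟨_, rfl⟩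
    have hNx : N * Matrix.fromBlocks (0 : Matrix (Fin s) (Fin s) ℂ) 0 0 x = zᵀ * N := by
      have h3 : Matrix.fromBlocks G1 0 0 B * Matrix.fromBlocks (0 : Matrix (Fin s) (Fin s) ℂ) 0 0 x =
          -((Matrix.fromBlocks (0 : Matrix (Fin s) (Fin s) ℂ) 0 0 x)ᵀ *
            Matrix.fromBlocks G1 0 0 B) := by
        rw [Matrix.fromBlocks_transpose, Matrix.fromBlocks_multiply, Matrix.fromBlocks_multiply,
          Matrix.fromBlocks_neg]
        congr 1
        · simp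
        · simp
        · simp
        · simp [hBx]
      calc N * Matrix.fromBlocks (0 : Matrix (Fin s) (Fin s) ℂ) 0 0 x =
          -(E'ᵀ * ((Matrix.fromBlocks (0 : Matrix (Fin s) (Fin s) ℂ) 0 0 x)ᵀ *
            Matrix.fromBlocks G1 0 0 B)) := by rw [hN, Matrix.mul_assoc, h3, Matrix.mul_neg]
        _ = -(E'ᵀ * ((Matrix.fromBlocks (0 : Matrix (Fin s) (Fin s) ℂ) 0 0 x)ᵀ *
            ((E' * E)ᵀ * Matrix.fromBlocks G1 0 0 B))) := by
              rw [h2, Matrix.transpose_one, Matrix.one_mul]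
        _ = _ := by
          rw [hN, hz, Matrix.transpose_neg, Matrix.neg_mul]
          simp only [Matrix.transpose_mul, Matrix.mul_assoc]
    have hTC : ∀ w : Fin r → ℂ, E *ᵥ (Sum.elim (0 : Fin s → ℂ) w) ∈ TC tt := by
      intro w i hi
      rw [Matrix.mulVec, dotProduct, Fintype.sum_sum_type]
      simp [hr i hi]
    have hq : ∀ w : Fin r → ℂ, (Sum.elim (0 : Fin s → ℂ) (B *ᵥ w)) ᵥ* E' =
        -(cQ H.Qr *ᵥ (E *ᵥ (Sum.elim (0 : Fin s → ℂ) w))) := by
      intro w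
      have e1 : (Sum.elim (0 : Fin s → ℂ) (B *ᵥ w)) =
          -((Matrix.fromBlocks Q1 0 0 (-B)) *ᵥ (Sum.elim (0 : Fin s → ℂ) w)) := by
        rw [Matrix.fromBlocks_mulVec]
        funext j
        rcases j with j | j
        · simp
        · simp [Matrix.neg_mulVec]
      rw [e1, ← hQ, Matrix.neg_vecMul, ← Matrix.mulVec_transpose, Matrix.mulVec_mulVec,
        Matrix.mulVec_mulVec]
      congr 2
      calc E'ᵀ * (Eᵀ * cQ H.Qr * E) = (E * E')ᵀ * (cQ H.Qr * E) := by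
            rw [Matrix.transpose_mul]
            simp only [Matrix.mul_assoc]
        _ = cQ H.Qr * E := by rw [h1, Matrix.transpose_one, Matrix.one_mul]
    have hz2 : z = wd H (E *ᵥ (Sum.elim (0 : Fin s → ℂ) u)) (E *ᵥ (Sum.elim (0 : Fin s → ℂ) v)) := by
      have e1 : Matrix.fromBlocks (0 : Matrix (Fin s) (Fin s) ℂ) 0 0 x =
          Matrix.vecMulVec (Sum.elim (0 : Fin s → ℂ) u) (Sum.elim (0 : Fin s → ℂ) (B *ᵥ v)) -
          Matrix.vecMulVec (Sum.elim (0 : Fin s → ℂ) v) (Sum.elim (0 : Fin s → ℂ) (B *ᵥ u)) := by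
        rw [hx]
        ext i j
        rcases i with i | i <;> rcases j with j | j <;>
          simp [Matrix.vecMulVec_apply]
      rw [hz, e1, Matrix.mul_sub, Matrix.sub_mul, Matrix.mul_vecMulVec, Matrix.mul_vecMulVec,
        Matrix.vecMulVec_mul, Matrix.vecMulVec_mul, hq, hq, wd, Matrix.vecMulVec_neg,
        Matrix.vecMulVec_neg]
      abel
    have hzo : z ∈ ho H := by
      rw [hz2]
      exact hwd _ (hTC u) _ (hTC v)
    have h4 := congrFun (linv_of hNx (hzo (Fin m) a ha)) J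
    rw [← ht, vecMul_dk, hx] at h4
    exact h4

end Blk

end Pool.Agent.V5helper18.GK
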