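import Pool.Agent.V5helper10.GK.Stm2
import Pool.Agent.V5helper6.KSC.G8
import Pool.Agent.V5helper44.KSC.Main2
import Pool.Agent.V5helper18.GK.HGTp

/-!
# Project GK, job HGT: Hodge classes on the powers are invariant under the special orthogonal group
-/

set_option linter.unusedSectionVars false

open CategoryTheory AlgebraicGeometry TensorProduct

universe u

namespace Pool.Agent.V5helper18.GK

open Module Matrix Pool.Agent.N996.BP
open Pool.Agent.H914 Pool.Agent.H914.VarClass Pool.Agent.H914.VarClass.Obj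
  Pool.Agent.H914.WeilCohomology
open Pool.Agent.Y133.Half Pool.Agent.Y121.AH
open Pool.Agent.N996.BP.Geo
open Pool.Agent.V5helper10.KSC

/-- The trace of a product of two words in two bases. -/
lemma tr_wb2 {k : Type u} [Field k] {𝒱 : VarClass k} {ops : CycleOps 𝒱}
    {W : WeilCohomology.{u, 0} ops} {X : 𝒱.Obj} {ι κ : Type} [Fintype ι] [DecidableEq ι]
    [Fintype κ] [DecidableEq κ] (e : Basis ι W.K (W.H X)) (f : Basis κ W.K (W.H X))
    (he : ∀ j, e j ∈ PH W X 0) (hf : ∀ j, f j ∈ PH W X 0) :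
    ∀ (n : ℕ) (w : Fin (n + 1) → ι) (v : Fin (n + 1) → κ),
      W.tr (pw X n) (wb e n w * wb f n v) = ∏ k, W.tr X (e (w k) * f (v k))
  | 0, w, v => by
    rw [wb_zero, wb_zero, Fin.prod_univ_one]
    rfl
  | n + 1, w, v => by
    rw [wb_succ, wb_succ, Fin.prod_univ_castSucc, ← tr_wb2 e f he hf n]
    have h1 : xp W (X := pw X n) (Y := X) (wb e n fun i => w i.castSucc) (e (w (Fin.last _))) *
        xp W (X := pw X n) (Y := X) (wb f n fun i => v i.castSucc) (f (v (Fin.last _))) =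
        (-1 : W.K) ^ (0 * 0) • xp W (X := pw X n) (Y := X)
          ((wb e n fun i => w i.castSucc) * (wb f n fun i => v i.castSucc))
          (e (w (Fin.last _)) * f (v (Fin.last _))) :=
      xp_mul _ _ _ _ (he _) (Pool.Agent.V5helper44.KSC.wb_even f hf n _)
    have h2 := congrArg (W.tr ((pw X n).prod X)) h1
    rw [mul_zero, pow_zero, one_smul, tr_xp] at h2
    exact h2

/-- **HGT** -/
theorem t_HGT (h : Pool.Agent.V5helper10.GK.S_SOI.{u}) : Pool.Agent.V5helper10.GK.S_HGT.{u} := by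
  intro k _ 𝒱 ops T X Dv hK hS r s f cod hf hfT hfo B hB n j c hc
  obtain ⟨ι, _, _, ⟨M⟩⟩ := Pool.Agent.V5helper10.KSC.All.h_dat T X Dv hK
  obtain ⟨hwd, hso⟩ := h T X Dv hK hS M
  have hMB := M.hB
  have he : ∀ i, M.e i ∈ PH T.W X 0 := by
    intro i
    by_cases h1 : i = M.o
    · rw [h1, hMB.one]
      exact PH.of' (i := 0) rfl (T.W.one_mem X)
    by_cases h2 : i = M.p
    · rw [h2]
      exact PH.of' (i := 4) rfl hMB.pt
    · exact PH.of' (i := 2) rfl (hMB.two i h1 h2)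
  have hfe : ∀ i, f i ∈ PH T.W X 0 := by
    intro i
    rcases i with i | i
    · exact PH.of' (by omega) (hf i).1
    · exact PH.of' (i := 2) rfl (hfT i).1
  obtain ⟨a, rfl⟩ := cls_surj M.e n c
  have ha : a ∈ BB M.H (Fin (n + 1)) :=
    (inv_cls M.e M.hH n a).1 (inv_iff.2 (ClassPred.sp_of hc))
  have hfs : ∀ x y, T.W.tr X (f x * f y) = T.W.tr X (f y * f x) := by
    intro x y
    rw [PH.even_comm (hfe x)]
  have hfo' : ∀ i b, T.W.tr X (f (Sum.inr b) * f (Sum.inl i)) = 0 := fun i b => by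
    rw [hfs, hfo]
  have horth : ∀ i, ∀ v ∈ TrA T X, T.W.tr X (v * f (Sum.inl i)) = 0 := by
    intro i v hv
    by_cases hj : cod i = 1
    · have h1 := hf i
      rw [hj] at h1
      exact hv.2 _ h1
    · exact T.W.tr_eq_zero (T.W.mul_mem hv.1 (hf i).1) (by rw [hK.dim]; omega)
  obtain ⟨E, hE⟩ : ∃ E : Matrix ι (Fin s ⊕ Fin r) ℂ,
      E = (M.e.toMatrix f).map (algebraMap T.W.K ℂ) := ⟨_, rfl⟩
  obtain ⟨E', hE'⟩ : ∃ E' : Matrix (Fin s ⊕ Fin r) ι ℂ,
      E' = (f.toMatrix M.e).map (algebraMap T.W.K ℂ) := ⟨_, rfl⟩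
  have hEa : ∀ i x, E i x = algebraMap T.W.K ℂ (M.e.repr (f x) i) := fun i x => by
    rw [hE]; rfl
  have hEa' : ∀ x i, E' x i = algebraMap T.W.K ℂ (f.repr (M.e i) x) := fun x i => by
    rw [hE']; rfl
  have h1 : E * E' = 1 := by
    rw [hE, hE', ← Matrix.map_mul, Basis.toMatrix_mul_toMatrix_flip,
      Matrix.map_one _ (map_zero _) (map_one _)]
  have h2 : E' * E = 1 := by
    rw [hE, hE', ← Matrix.map_mul, Basis.toMatrix_mul_toMatrix_flip,
      Matrix.map_one _ (map_zero _) (map_one _)]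
  have hl : ∀ i ∈ M.tt, ∀ x, E i (Sum.inl x) = 0 := by
    intro i hi x
    rw [hEa, (Pool.Agent.V5helper6.KSC.orth_TrA hK hMB _).1 (horth x) i hi, map_zero]
  have hr : ∀ i, i ∉ M.tt → ∀ x, E i (Sum.inr x) = 0 := by
    intro i hi x
    rw [hEa, (Pool.Agent.V5helper6.KSC.mem_TrA hK hMB _).1 (hfT x) i hi, map_zero]
  have hBc : ∀ x y, (cQ B) x y = algebraMap T.W.K ℂ (T.W.tr X (f (Sum.inr x) * f (Sum.inr y))) := by
    intro x y
    rw [← hB, map_ratCast]
    rfl
  have hBs : (cQ B)ᵀ = cQ B := by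
    ext x y
    rw [Matrix.transpose_apply, hBc, hBc, hfs]
  obtain ⟨G1, hG1⟩ : ∃ G1 : Matrix (Fin s) (Fin s) ℂ, G1 = Matrix.of fun x y =>
      algebraMap T.W.K ℂ (T.W.tr X (f (Sum.inl x) * f (Sum.inl y))) := ⟨_, rfl⟩
  have hG : ∀ x y, (Matrix.fromBlocks G1 0 0 (cQ B)) x y =
      algebraMap T.W.K ℂ (T.W.tr X (f x * f y)) := by
    intro x y
    rcases x with x | x <;> rcases y with y | y
    · rw [Matrix.fromBlocks_apply₁₁, hG1]; rfl
    · rw [Matrix.fromBlocks_apply₁₂, hfo, map_zero]; rfl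
    · rw [Matrix.fromBlocks_apply₂₁, hfo', map_zero]; rfl
    · rw [Matrix.fromBlocks_apply₂₂, hBc]
  obtain ⟨N, hN⟩ : ∃ N : Matrix ι (Fin s ⊕ Fin r) ℂ, N = Matrix.of fun i x =>
      algebraMap T.W.K ℂ (T.W.tr X (M.e i * f x)) := ⟨_, rfl⟩
  have hN2 : N = E'ᵀ * Matrix.fromBlocks G1 0 0 (cQ B) := by
    ext i x
    rw [Matrix.mul_apply]
    have h3 : N i x = algebraMap T.W.K ℂ (T.W.tr X (M.e i * f x)) := by rw [hN]; rfl
    rw [h3]
    conv_lhs => rw [← f.sum_repr (M.e i)]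
    rw [Finset.sum_mul, map_sum, map_sum]
    refine Finset.sum_congr rfl fun y _ => ?_
    rw [smul_mul_assoc, map_smul, smul_eq_mul, map_mul, hG, Matrix.transpose_apply, hEa']
  have hq : cQ M.H.Qr = Matrix.diagonal fun i => algebraMap T.W.K ℂ (qd M.e M.o M.p M.d i) := by
    ext i x
    have h3 : (cQ M.H.Qr) i x = algebraMap T.W.K ℂ ((M.H.Qr i x : ℚ) : T.W.K) := by
      rw [map_ratCast]
      rfl
    rw [h3, M.hQ, Matrix.diagonal_apply]
    split_ifs
    · rfl
    · rw [map_zero]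
  have hQa : ∀ x y, (Eᵀ * cQ M.H.Qr * E) x y =
      ∑ i, E i x * algebraMap T.W.K ℂ (qd M.e M.o M.p M.d i) * E i y := by
    intro x y
    rw [hq, Matrix.mul_apply]
    refine Finset.sum_congr rfl fun i _ => ?_
    rw [Matrix.mul_diagonal, Matrix.transpose_apply]
  obtain ⟨Q1, hQ1⟩ : ∃ Q1 : Matrix (Fin s) (Fin s) ℂ, Q1 = Matrix.of fun x y =>
      (Eᵀ * cQ M.H.Qr * E) (Sum.inl x) (Sum.inl y) := ⟨_, rfl⟩
  have hQ : Eᵀ * cQ M.H.Qr * E = Matrix.fromBlocks Q1 0 0 (-(cQ B)) := by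
    ext x y
    rcases x with x | x <;> rcases y with y | y
    · rw [Matrix.fromBlocks_apply₁₁, hQ1]; rfl
    · rw [Matrix.fromBlocks_apply₁₂, hQa, Matrix.zero_apply]
      refine Finset.sum_eq_zero fun i _ => ?_
      by_cases hi : i ∈ M.tt
      · rw [hl i hi, zero_mul, zero_mul]
      · rw [hr i hi, mul_zero]
    · rw [Matrix.fromBlocks_apply₂₁, hQa, Matrix.zero_apply]
      refine Finset.sum_eq_zero fun i _ => ?_
      by_cases hi : i ∈ M.tt
      · rw [hl i hi, mul_zero]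
      · rw [hr i hi, zero_mul, zero_mul]
    · rw [Matrix.fromBlocks_apply₂₂, hQa, Matrix.neg_apply, hBc]
      conv_rhs => rw [← M.e.sum_repr (f (Sum.inr x))]
      rw [Finset.sum_mul, map_sum, map_sum, ← Finset.sum_neg_distrib]
      refine Finset.sum_congr rfl fun i _ => ?_
      rw [smul_mul_assoc, map_smul, smul_eq_mul, map_mul, ← hEa]
      by_cases hi : i ∈ M.tt
      · have hio : i ≠ M.o := fun h => hMB.ot (h ▸ hi)
        have hip : i ≠ M.p := fun h => hMB.pt' (h ▸ hi)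
        have hid : i ≠ M.d := fun h => hMB.dt (h ▸ hi)
        rw [Pool.Agent.V5helper6.KSC.tr_left hK hMB hio hip, map_mul, ← hEa, qd, if_neg, if_neg hid,
          map_neg]
        · ring
        · rintro (h3 | h3)
          · exact hio h3
          · exact hip h3
      · rw [hr i hi]
        ring
  have ht : (fun I => algebraMap T.W.K ℂ (T.W.tr (pw X n) (cls M.e n a * wb f n I))) =
      ca a ᵥ* kr fun _ : Fin (n + 1) => N := by
    funext I
    have h3 : (ca a ᵥ* kr fun _ : Fin (n + 1) => N) I = ∑ V, (a V : ℂ) * ∏ l, N (V l) (I l) := rfl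
    rw [h3, cls, Finset.sum_mul, map_sum, map_sum]
    refine Finset.sum_congr rfl fun V _ => ?_
    rw [smul_mul_assoc, map_smul, smul_eq_mul, map_mul, map_ratCast, tr_wb2 M.e f he hfe, map_prod]
    congr 1
    refine Finset.prod_congr rfl fun l _ => ?_
    rw [hN]
    rfl
  exact core_blk hwd hso h1 h2 hl hr hQ hBs hN2 ha ht

end Pool.Agent.V5helper18.GK
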